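import Mathlib
import Pool.Agent.Helper509.GI.Trunc

/-!
# MP_d583b7_an, Q1: a negative answer

Q1 asks whether every linear `φ : B(X) → B(X)` that preserves `B(X)^` (the operators with a
generalized inverse) in both directions and is surjective up to finite-rank operators has form
(SF), for every infinite-dimensional complex Banach space `X`.  The answer is no.

Let `X` be a Banach space whose Calkin algebra is `ℂ[q]/(q³)`, let `S` be an operator with
`π(S) = q`, let `ν(A)` be the coefficient of `q²` in `π(A)`, and let `φ(A) = A + ν(A) S²`.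
-/

set_option autoImplicit false

namespace Pool.Agent.Results.MP_d583b7_an.GeneralizedInvertibility

section Definitions

variable (X : Type) [NormedAddCommGroup X] [NormedSpace ℂ X]

/-- The algebra `B(X)` of the bounded linear operators on `X`. -/
def B : Type := X →L[ℂ] X

noncomputable instance instNormedRingB : NormedRing (B X) :=
  (inferInstance : NormedRing (X →L[ℂ] X))

noncomputable instance instNormedAlgebraB : NormedAlgebra ℂ (B X) :=
  (inferInstance : NormedAlgebra ℂ (X →L[ℂ] X))

variable {X}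

/-- The operator as a linear map. -/
def lin (A : B X) : X →ₗ[ℂ] X := (A : X →L[ℂ] X).toLinearMap

/-- `C` is a generalized inverse of `A`. -/
def IsGenInverse (A C : B X) : Prop := A * C * A = A ∧ C * A * C = C

/-- `A` has a generalized inverse, that is, `A ∈ B(X)^`. -/
def HasGenInverse (A : B X) : Prop := ∃ C : B X, IsGenInverse A C

/-- `A` is a compact operator. -/
def IsCompactOp (A : B X) : Prop := IsCompactOperator (lin A)

/-- `A` has finite rank. -/
def IsFiniteRank (A : B X) : Prop := FiniteDimensional ℂ (LinearMap.range (lin A))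

/-- `φ` preserves the set `S` in both directions. -/
def PreservesBothWays (S : B X → Prop) (φ : B X → B X) : Prop := ∀ A, S (φ A) ↔ S A

/-- `φ` is a bounded linear bijection (of `B(X)` onto itself). -/
def IsBoundedLinearBijection (φ : B X → B X) : Prop := ∃ ψ : B X ≃L[ℂ] B X, ∀ A, ψ A = φ A

/-- `φ` is surjective up to finite-rank operators. -/
def SurjectiveUpToFiniteRank (φ : B X → B X) : Prop := ∀ A, ∃ C, IsFiniteRank (A - φ C)

variable (X) in
/-- The two-sided ideal `K(X)` of the compact operators in `B(X)`. -/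
def compactIdeal : Ideal (B X) where
  carrier := {K | IsCompactOp K}
  add_mem' := fun ha hb => IsCompactOperator.add ha hb
  zero_mem' := isCompactOperator_zero
  smul_mem' := fun A _ hK => IsCompactOperator.clm_comp hK (A : X →L[ℂ] X)

instance : (compactIdeal X).IsTwoSided where
  mul_mem_of_left := fun A hK => IsCompactOperator.comp_clm hK (A : X →L[ℂ] X)

variable (X) in
/-- The Calkin algebra `C(X) = B(X)/K(X)`. -/
def Calkin : Type := B X ⧸ compactIdeal X

noncomputable instance instRingCalkin : Ring (Calkin X) :=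
  (inferInstance : Ring (B X ⧸ compactIdeal X))

noncomputable instance instAlgebraCalkin : Algebra ℂ (Calkin X) :=
  (inferInstance : Algebra ℂ (B X ⧸ compactIdeal X))

variable (X) in
/-- The quotient map `π : B(X) → C(X)`. -/
noncomputable def π : B X →ₐ[ℂ] Calkin X := Ideal.Quotient.mkₐ ℂ (compactIdeal X)

/-- The second half of form (SF): for an invertible `a` of the Calkin algebra and an algebra
automorphism or anti-automorphism `τ` of it, `π (φ A) = a τ(π A)` for all `A`. -/
def InducedForm (φ : B X → B X) : Prop :=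
  ∃ a : (Calkin X)ˣ,
    (∃ τ : Calkin X ≃ₐ[ℂ] Calkin X, ∀ A, π X (φ A) = a * τ (π X A)) ∨
    (∃ τ : Calkin X ≃ₐ[ℂ] (Calkin X)ᵐᵒᵖ, ∀ A, π X (φ A) = a * (τ (π X A)).unop)

/-- `φ` has form (SF). -/
def HasFormSF (φ : B X → B X) : Prop :=
  (∀ K, IsCompactOp K → IsCompactOp (φ K)) ∧ InducedForm φ

end Definitions

/-- The assertion of Q1. -/
def Q1 : Prop :=
  ∀ (X : Type) [NormedAddCommGroup X] [NormedSpace ℂ X] [CompleteSpace X],
    ¬ FiniteDimensional ℂ X → ∀ φ : B X → B X, IsLinearMap ℂ φ →
      PreservesBothWays HasGenInverse φ → SurjectiveUpToFiniteRank φ → HasFormSF φ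

open Helper509.GI

variable {X : Type} [NormedAddCommGroup X] [NormedSpace ℂ X] [CompleteSpace X]

section Proof

variable (Φ : B X →L[ℂ] (ℂ × ℂ × ℂ))

/-- the functional `ν` -/
noncomputable def nu : B X →L[ℂ] ℂ :=
  ((ContinuousLinearMap.snd ℂ ℂ ℂ).comp (ContinuousLinearMap.snd ℂ ℂ (ℂ × ℂ))).comp Φ

omit [CompleteSpace X] in
lemma nu_apply (A : B X) : nu Φ A = (Φ A).2.2 := rfl

/-- the map `A ↦ A + c ν(A) D` -/
noncomputable def phi (c : ℂ) (D : B X) : B X →L[ℂ] B X :=
  ContinuousLinearMap.id ℂ (B X) + (c • nu Φ).smulRight D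

omit [CompleteSpace X] in
lemma phi_apply (c : ℂ) (D A : B X) : phi Φ c D A = A + (c * nu Φ A) • D := rfl

/-- the bijection `φ(A) = A + ν(A) D` for `ν(D) = 1` -/
noncomputable def psi (D : B X) (hD : nu Φ D = 1) : B X ≃L[ℂ] B X :=
  ContinuousLinearEquiv.equivOfInverse (phi Φ 1 D) (phi Φ (-(1 / 2)) D)
    (by
      intro A
      rw [phi_apply, phi_apply, map_add, map_smul, hD, add_assoc, ← add_smul]
      have h1 : (1 * nu Φ A + -(1 / 2) * (nu Φ A + (1 * nu Φ A) • (1 : ℂ)) : ℂ) = 0 := by
        rw [smul_eq_mul]; ring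
      rw [h1, zero_smul, add_zero])
    (by
      intro A
      rw [phi_apply, phi_apply, map_add, map_smul, hD, add_assoc, ← add_smul]
      have h1 : (-(1 / 2) * nu Φ A + 1 * (nu Φ A + (-(1 / 2) * nu Φ A) • (1 : ℂ)) : ℂ) = 0 := by
        rw [smul_eq_mul]; ring
      rw [h1, zero_smul, add_zero])

omit [CompleteSpace X] in
lemma psi_apply (D : B X) (hD : nu Φ D = 1) (A : B X) : psi Φ D hD A = A + nu Φ A • D := by
  show A + (1 * nu Φ A) • D = A + nu Φ A • D
  rw [one_mul]

variable (h1 : Φ 1 = (1, 0, 0)) (hmul : ∀ S T, Φ (S * T) = tm (Φ S) (Φ T))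
  (hs : Function.Surjective Φ) (hker : ∀ T, Φ T = 0 ↔ IsCompactOp T)

include h1 hmul hs hker in
/-- operators with `λ ≠ 0` have a generalized inverse -/
lemma genInverse_of_ne {A : B X} (hA : (Φ A).1 ≠ 0) : HasGenInverse A := by
  set l := (Φ A).1 with hl
  set m := (Φ A).2.1 with hm
  set n := (Φ A).2.2 with hn
  have hΦA : Φ A = (l, m, n) := rfl
  obtain ⟨C, hC⟩ := hs (1 / l, - m / (l * l), (m * m - l * n) / (l * l * l))
  have e1 : Φ (A * C) = Φ 1 := by
    rw [hmul, hΦA, hC, h1]
    refine Prod.ext ?_ (Prod.ext ?_ ?_)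
    · show l * (1 / l) = 1
      field_simp
    · show l * (- m / (l * l)) + m * (1 / l) = 0
      field_simp
      ring
    · show l * ((m * m - l * n) / (l * l * l)) + m * (- m / (l * l)) + n * (1 / l) = 0
      field_simp
      ring
  have e2 : Φ (C * A) = Φ 1 := by
    rw [hmul, hΦA, hC, h1]
    refine Prod.ext ?_ (Prod.ext ?_ ?_)
    · show (1 / l) * l = 1
      field_simp
    · show (1 / l) * m + (- m / (l * l)) * l = 0
      field_simp
      ring
    · show (1 / l) * n + (- m / (l * l)) * m + ((m * m - l * n) / (l * l * l)) * l = 0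
      field_simp
      ring
  have e3 : IsCompactOp (A * C - 1) := (hker _).1 (by rw [map_sub, e1, sub_self])
  have e4 : IsCompactOp (C * A - 1) := (hker _).1 (by rw [map_sub, e2, sub_self])
  exact exists_genInverse (X := X) (𝕜 := ℂ) A C e4 e3

omit [CompleteSpace X] in
include hmul in
/-- operators with `λ = 0` and a generalized inverse are compact -/
lemma zero_of_genInverse {A : B X} (hA : (Φ A).1 = 0) (hG : HasGenInverse A) : Φ A = 0 := by
  obtain ⟨C, hC, -⟩ := hG
  have e1 := congrArg Φ hC
  rw [hmul, hmul] at e1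
  set m := (Φ A).2.1 with hm
  set n := (Φ A).2.2 with hn
  have hΦA : Φ A = (0, m, n) := Prod.ext hA rfl
  rw [hΦA] at e1 ⊢
  have e2 := congrArg (fun p => p.2.1) e1
  have e3 := congrArg (fun p => p.2.2) e1
  simp only [tm] at e2 e3
  have h0 : m = 0 := by
    rw [← e2]; ring
  have h2 : n = 0 := by
    rw [← e3, h0]; ring
  rw [h0, h2]
  rfl

end Proof

/-- **Negative answer to Q1.**
(1) The assertion of Q1 is false.
(2) More precisely, there are an infinite-dimensional complex Banach space `X` and a bounded linear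
bijection `φ` of `B(X)` onto itself with `φ 1 = 1`, with `φ K = K` for all compact `K` and with `φ A`
compact only for compact `A`, which preserves `B(X)^` in both directions, but for which the induced
map of the Calkin algebra is not of the form `x ↦ a τ(x)` with an invertible `a` and an
automorphism or an anti-automorphism `τ`. -/
theorem result :
    ¬ Q1 ∧
    ∃ (X : Type) (_ : NormedAddCommGroup X) (_ : NormedSpace ℂ X),
      CompleteSpace X ∧ ¬ FiniteDimensional ℂ X ∧
      ∃ φ : B X → B X, IsBoundedLinearBijection φ ∧ φ 1 = 1 ∧ (∀ K, IsCompactOp K → φ K = K) ∧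
        PreservesBothWays IsCompactOp φ ∧ PreservesBothWays HasGenInverse φ ∧
        ¬ InducedForm φ := by
  have main : ∃ (X : Type) (_ : NormedAddCommGroup X) (_ : NormedSpace ℂ X),
      CompleteSpace X ∧ ¬ FiniteDimensional ℂ X ∧
      ∃ φ : B X → B X, IsBoundedLinearBijection φ ∧ φ 1 = 1 ∧ (∀ K, IsCompactOp K → φ K = K) ∧
        PreservesBothWays IsCompactOp φ ∧ PreservesBothWays HasGenInverse φ ∧
        ¬ InducedForm φ := by
    obtain ⟨X, i1, i2, i3, Φ0, h1, hmul, hs, hker0⟩ := exists_space
    let Φ : B X →L[ℂ] (ℂ × ℂ × ℂ) := Φ0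
    have hker : ∀ T : B X, Φ T = 0 ↔ IsCompactOp T := hker0
    have h1' : Φ 1 = (1, 0, 0) := h1
    have hmul' : ∀ S T : B X, Φ (S * T) = tm (Φ S) (Φ T) := hmul
    have hs' : Function.Surjective Φ := hs
    obtain ⟨S, hS⟩ := hs' (0, 1, 0)
    have hSS : Φ (S * S) = (0, 0, 1) := by
      rw [hmul', hS]
      simp [tm]
    have hD : nu Φ (S * S) = 1 := by rw [nu_apply, hSS]
    have hfix : ∀ A : B X, nu Φ A = 0 → psi Φ (S * S) hD A = A := by
      intro A hA
      rw [psi_apply, hA, zero_smul, add_zero]
    have hΦψ : ∀ A : B X, Φ (psi Φ (S * S) hD A) = ((Φ A).1, (Φ A).2.1, (Φ A).2.2 + (Φ A).2.2) := by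
      intro A
      rw [psi_apply, map_add, map_smul, hSS, nu_apply]
      refine Prod.ext ?_ (Prod.ext ?_ ?_)
      · show (Φ A).1 + (Φ A).2.2 * 0 = (Φ A).1
        ring
      · show (Φ A).2.1 + (Φ A).2.2 * 0 = (Φ A).2.1
        ring
      · show (Φ A).2.2 + (Φ A).2.2 * 1 = (Φ A).2.2 + (Φ A).2.2
        ring
    refine ⟨X, i1, i2, i3, ?_, psi Φ (S * S) hD, ⟨psi Φ (S * S) hD, fun _ => rfl⟩, ?_, ?_, ?_, ?_, ?_⟩
    · intro hfd
      have : ProperSpace X := FiniteDimensional.proper ℂ X
      have h2 : IsCompactOperator (1 : X →L[ℂ] X) :=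
        isCompactOperator_of_locallyCompactSpace_rng (M₂ := X) (M₃ := X) (1 : X →L[ℂ] X)
      have h3 := (hker 1).2 h2
      rw [h1'] at h3
      exact one_ne_zero (congrArg Prod.fst h3)
    · refine hfix 1 ?_
      rw [nu_apply, h1']
    · intro K hK
      refine hfix K ?_
      rw [nu_apply, (hker K).2 hK]
      rfl
    · intro A
      rw [← hker, ← hker, hΦψ]
      constructor
      · intro h
        have e1 : (Φ A).1 = 0 := congrArg Prod.fst h
        have e2 : (Φ A).2.1 = 0 := congrArg (fun p => p.2.1) h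
        have e3 : (Φ A).2.2 + (Φ A).2.2 = 0 := congrArg (fun p => p.2.2) h
        exact Prod.ext e1 (Prod.ext e2 (add_self_eq_zero.1 e3))
      · intro h
        rw [h]
        simp
    · intro A
      by_cases hA : (Φ A).1 = 0
      · constructor
        · intro h
          have e0 : (Φ (psi Φ (S * S) hD A)).1 = 0 := by rw [hΦψ]; exact hA
          have e1 := zero_of_genInverse Φ hmul' e0 h
          rw [hΦψ] at e1
          have e3 : (Φ A).2.2 + (Φ A).2.2 = 0 := congrArg (fun p => p.2.2) e1
          rw [hfix A (add_self_eq_zero.1 e3)] at h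
          exact h
        · intro h
          have e1 := zero_of_genInverse Φ hmul' hA h
          rw [hfix A (by rw [nu_apply, e1]; rfl)]
          exact h
      · constructor
        · intro _
          exact genInverse_of_ne Φ h1' hmul' hs' hker hA
        · intro _
          refine genInverse_of_ne Φ h1' hmul' hs' hker ?_
          rw [hΦψ]
          exact hA
    · rintro ⟨a, ha⟩
      have hψ1 : psi Φ (S * S) hD 1 = 1 := hfix 1 (by rw [nu_apply, h1'])
      have hψS : psi Φ (S * S) hD S = S := hfix S (by rw [nu_apply, hS])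
      have hψSS : psi Φ (S * S) hD (S * S) = S * S + S * S := by
        rw [psi_apply, hD, one_smul]
      -- `π(S²) ≠ 0`
      have hne : π X (S * S) ≠ 0 := by
        intro h
        have h2 : IsCompactOp (S * S) := (Ideal.Quotient.eq_zero_iff_mem (I := compactIdeal X)).1 h
        have h3 := (hker _).2 h2
        rw [hSS] at h3
        exact one_ne_zero (congrArg (fun p => p.2.2) h3)
      apply hne
      rcases ha with ⟨τ, hτ⟩ | ⟨τ, hτ⟩
      · have ha1 : (a : Calkin X) = 1 := by
          have h := hτ 1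
          rw [hψ1, map_one, map_one, mul_one] at h
          exact h.symm
        have h2 : ∀ C : B X, π X (psi Φ (S * S) hD C) = τ (π X C) := by
          intro C
          rw [hτ, ha1, one_mul]
        have h3 := h2 (S * S)
        rw [hψSS, map_mul, map_mul, ← h2 S, hψS, map_add, map_mul] at h3
        rw [map_mul]
        exact add_eq_left.1 h3
      · have ha1 : (a : Calkin X) = 1 := by
          have h := hτ 1
          rw [hψ1, map_one, map_one, MulOpposite.unop_one, mul_one] at h
          exact h.symm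
        have h2 : ∀ C : B X, π X (psi Φ (S * S) hD C) = (τ (π X C)).unop := by
          intro C
          rw [hτ, ha1, one_mul]
        have h3 := h2 (S * S)
        rw [hψSS, map_mul, map_mul, MulOpposite.unop_mul, ← h2 S, hψS, map_add, map_mul] at h3
        rw [map_mul]
        exact add_eq_left.1 h3
  refine ⟨?_, main⟩
  intro hQ
  obtain ⟨X, i1, i2, i3, hinf, φ, ⟨ψ, hψ⟩, -, -, -, hG, hI⟩ := main
  have hlin : IsLinearMap ℂ φ := by
    have : φ = ψ := funext fun A => (hψ A).symm
    rw [this]
    exact ψ.toLinearEquiv.toLinearMap.isLinear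
  refine hI (hQ X hinf φ hlin hG ?_).2
  intro A
  refine ⟨ψ.symm A, ?_⟩
  have h2 : A - φ (ψ.symm A) = 0 := by
    rw [← hψ, ContinuousLinearEquiv.apply_symm_apply, sub_self]
  rw [h2]
  show FiniteDimensional ℂ (LinearMap.range (lin (0 : B X)))
  have h3 : lin (0 : B X) = 0 := rfl
  rw [h3, LinearMap.range_zero]
  infer_instance

end Pool.Agent.Results.MP_d583b7_an.GeneralizedInvertibility
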